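import Pool.Agent.H93.FB.Targets

/-!
Fibration lemma (MP_2059f1_ag): lemmas on double sums and classes of cycles.
-/

open Topology Set
open scoped unitInterval ContinuousMap
open Pool.Agent.H59 Pool.Agent.H64.LB Pool.Agent.H93.FB

namespace Pool.Agent.H4.FB

theorem dl_zero_empty : IsEmpty (Dl 0) := by
  refine ⟨fun x => ?_⟩
  have h := x.2.2
  simp at h

theorem smp_zero_eq {X : Type} [TopologicalSpace X] (x y : Smp 0 X) : x = y := by
  ext t
  exact (dl_zero_empty.false t).elim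

noncomputable section

variable {A B : Type} [TopologicalSpace A] [TopologicalSpace B] (f : C(A, B)) (a0 : A)
  [SimplyConnectedSpace A]

theorem isK_zero (s : CS (f a0) 0) : IsK f a0 s := fun t => (dl_zero_empty.false t).elim

theorem isK_cfc {n : ℕ} {s : CS (f a0) (n + 1)} (h : IsK f a0 s) (i : Fin (n + 1)) :
    IsK f a0 (cfc s i) := fun t => h (cf i t)

/-- `dphi` only depends on one function -/
def dphi1 {n : ℕ} (ψ : ∀ s : CS (f a0) n, Ch ℚ n (Es f a0 s)) (s : CS (f a0) (n + 1)) :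
    Ch ℚ n (Es f a0 s) :=
  ∑ i : Fin (n + 1), (-1 : ℚ) ^ (i : ℕ) • pf ℚ n (fi f a0 s i) (ψ (cfc s i))

/-- `dD` only depends on one function -/
def dD1 {n : ℕ} (D : ∀ e : Smp n (EE f), Ch ℚ (n + 1) (Es f a0 (prS f a0 e)))
    (e : Smp (n + 1) (EE f)) : Ch ℚ (n + 1) (Es f a0 (prS f a0 e)) :=
  ∑ i : Fin (n + 1), (-1 : ℚ) ^ (i : ℕ) •
    pf ℚ (n + 1) (em f a0 (r := prS f a0 (fc e i)) (s := prS f a0 e) (cf i) rfl) (D (fc e i))

theorem phi_congr {q N : ℕ} (ψ : ∀ s : CS (f a0) q, Ch ℚ q (Es f a0 s)) {s : CS (f a0) N}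
    {r r' : CS (f a0) q} {δ δ' : C(Dl q, Dl N)} (h : r = s.comp δ) (h' : r' = s.comp δ')
    (hd : δ = δ') : pf ℚ q (em f a0 δ h) (ψ r) = pf ℚ q (em f a0 δ' h') (ψ r') := by
  subst hd
  subst h
  subst h'
  rfl

theorem D_congr {q N : ℕ} (D : ∀ e : Smp q (EE f), Ch ℚ (q + 1) (Es f a0 (prS f a0 e)))
    {s : CS (f a0) N} {e e' : Smp q (EE f)} {δ δ' : C(Dl q, Dl N)}
    (h : prS f a0 e = s.comp δ) (h' : prS f a0 e' = s.comp δ') (he : e = e') (hd : δ = δ') :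
    pf ℚ (q + 1) (em f a0 δ h) (D e) = pf ℚ (q + 1) (em f a0 δ' h') (D e') := by
  subst hd
  subst he
  rfl

/-- the double alternating sum of `φ` vanishes -/
theorem dd_phi {n : ℕ} (ψ : ∀ s : CS (f a0) n, Ch ℚ n (Es f a0 s)) (s : CS (f a0) (n + 2)) :
    ∑ i : Fin (n + 2), (-1 : ℚ) ^ (i : ℕ) • pf ℚ n (fi f a0 s i) (dphi1 f a0 ψ (cfc s i)) = 0 := by
  have h := alt_sum_zero ℚ n (fun i j => pf ℚ n (em f a0 (r := cfc (cfc s i) j) (s := s)
    ((cf i).comp (cf j)) rfl) (ψ (cfc (cfc s i) j))) (by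
      intro i j hij
      exact phi_congr f a0 ψ _ _ (cf_comp_cf i j hij))
  rw [← h]
  refine Finset.sum_congr rfl fun i _ => ?_
  rw [dphi1, map_sum, Finset.smul_sum]
  refine Finset.sum_congr rfl fun j _ => ?_
  rw [map_smul, smul_smul, ← HH.pf_comp]
  rfl

/-- the double alternating sum of `D` vanishes -/
theorem dd_D {n : ℕ} (D : ∀ e : Smp n (EE f), Ch ℚ (n + 1) (Es f a0 (prS f a0 e)))
    (e : Smp (n + 2) (EE f)) :
    ∑ i : Fin (n + 2), (-1 : ℚ) ^ (i : ℕ) • pf ℚ (n + 1)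
      (em f a0 (r := prS f a0 (fc e i)) (s := prS f a0 e) (cf i) rfl)
        (dD1 f a0 D (fc e i)) = 0 := by
  have h := alt_sum_zero ℚ n (fun i j => pf ℚ (n + 1) (em f a0 (r := prS f a0 (fc (fc e i) j))
    (s := prS f a0 e) ((cf i).comp (cf j)) rfl) (D (fc (fc e i) j))) (by
      intro i j hij
      exact D_congr f a0 D _ _ (fc_fc e i j hij) (cf_comp_cf i j hij))
  rw [← h]
  refine Finset.sum_congr rfl fun i _ => ?_
  rw [dD1, map_sum, Finset.smul_sum]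
  refine Finset.sum_congr rfl fun j _ => ?_
  rw [map_smul, smul_smul, ← HH.pf_comp]
  rfl

/-- over constant simplices, `kap` is compatible with faces -/
theorem bd_kap {n : ℕ} (φ : ∀ (n : ℕ) (s : CS (f a0) n), Ch ℚ n (Es f a0 s))
    (hφ : ∀ (n : ℕ) (s : CS (f a0) n) (h : IsK f a0 s), φ n s = Finsupp.single (kap f a0 s h) 1)
    (s : CS (f a0) (n + 1)) (h : IsK f a0 s) :
    bd ℚ n (Es f a0 s) (Finsupp.single (kap f a0 s h) 1) = dphi f a0 φ n s := by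
  rw [bd_single, one_smul, dphi]
  refine Finset.sum_congr rfl fun i _ => ?_
  rw [hφ n _ (isK_cfc f a0 h i), pf_single]
  rfl

end

/-! ### classes of cycles -/

section kl

variable {X X' : Type} [TopologicalSpace X] [TopologicalSpace X'] {m : ℕ}

theorem kl_of {x : Ch ℚ (m + 1) X} (h : x ∈ ZZ ℚ m X) : kl m x = HH.mk ℚ m X ⟨x, h⟩ := by
  rw [kl, dif_pos h]

theorem kl_zero : kl m (0 : Ch ℚ (m + 1) X) = 0 := by
  rw [kl_of (Submodule.zero_mem _)]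
  exact map_zero _

theorem kl_add {x y : Ch ℚ (m + 1) X} (hx : x ∈ ZZ ℚ m X) (hy : y ∈ ZZ ℚ m X) :
    kl m (x + y) = kl m x + kl m y := by
  rw [kl_of hx, kl_of hy, kl_of (Submodule.add_mem _ hx hy), ← map_add]
  rfl

theorem kl_smul {x : Ch ℚ (m + 1) X} (c : ℚ) (hx : x ∈ ZZ ℚ m X) :
    kl m (c • x) = c • kl m x := by
  rw [kl_of hx, kl_of (Submodule.smul_mem _ c hx), ← map_smul]
  rfl

theorem kl_sub {x y : Ch ℚ (m + 1) X} (hx : x ∈ ZZ ℚ m X) (hy : y ∈ ZZ ℚ m X) :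
    kl m (x - y) = kl m x - kl m y := by
  rw [kl_of hx, kl_of hy, kl_of (Submodule.sub_mem _ hx hy), ← map_sub]
  rfl

theorem kl_sum {ι : Type*} (S : Finset ι) (c : ι → ℚ) (x : ι → Ch ℚ (m + 1) X)
    (hx : ∀ i ∈ S, x i ∈ ZZ ℚ m X) : kl m (∑ i ∈ S, c i • x i) = ∑ i ∈ S, c i • kl m (x i) := by
  classical
  induction S using Finset.induction_on with
  | empty => simpa using kl_zero
  | insert a S ha ih =>
    have h1 : x a ∈ ZZ ℚ m X := hx a (Finset.mem_insert_self a S)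
    have h2 : ∀ i ∈ S, x i ∈ ZZ ℚ m X := fun i hi => hx i (Finset.mem_insert_of_mem hi)
    rw [Finset.sum_insert ha, Finset.sum_insert ha, kl_add (Submodule.smul_mem _ _ h1)
      (Submodule.sum_mem _ fun i hi => Submodule.smul_mem _ _ (h2 i hi)), kl_smul _ h1, ih h2]

theorem bd_mem (y : Ch ℚ (m + 2) X) : bd ℚ (m + 1) X y ∈ ZZ ℚ m X := by
  apply mem_ZZ_of_bd
  exact bd_bd _ y

theorem kl_bd (y : Ch ℚ (m + 2) X) : kl m (bd ℚ (m + 1) X y) = 0 := by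
  rw [kl_of (bd_mem y), HH.mk_eq_zero_iff]
  exact ⟨y, rfl⟩

theorem kl_pf (g : C(X, X')) {x : Ch ℚ (m + 1) X} (hx : x ∈ ZZ ℚ m X) :
    kl m (pf ℚ (m + 1) g x) = HH.map ℚ m g (kl m x) := by
  rw [kl_of hx, kl_of (HH.pf_mem_ZZ ℚ g hx), HH.map_mk]
  rfl

theorem kl_homotopic (hHM : T_HM) {g g' : C(X, X')} (h : g.Homotopic g') {x : Ch ℚ (m + 1) X}
    (hx : x ∈ ZZ ℚ m X) : kl m (pf ℚ (m + 1) g x) = kl m (pf ℚ (m + 1) g' x) := by
  rw [kl_pf g hx, kl_pf g' hx, hHM ℚ X X' g g' h m]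

end kl

end Pool.Agent.H4.FB
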