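import Pool.Agent.H4.FB.Base

/-!
Module F-DH of the fibration lemma (MP_2059f1_ag).
-/

open Topology Set
open scoped unitInterval ContinuousMap
open Pool.Agent.H59 Pool.Agent.H64.LB Pool.Agent.H93.FB

namespace Pool.Agent.H4.FB

noncomputable section

variable {A B : Type} [TopologicalSpace A] [TopologicalSpace B] (f : C(A, B)) (a0 : A)
  [SimplyConnectedSpace A] {m : ℕ} (P : Phi f a0 m)

/-- the chain `c e` -/
def cc {n : ℕ} (D : ∀ e : Smp n (EE f), Ch ℚ (n + 1) (Es f a0 (prS f a0 e)))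
    (e : Smp (n + 1) (EE f)) : Ch ℚ (n + 1) (Es f a0 (prS f a0 e)) :=
  Finsupp.single (tau f a0 e) 1 - P.φ (n + 1) (prS f a0 e) - dD1 f a0 D e

/-- the chain `c e` is a cycle, degree zero -/
theorem cc_zero (e : Smp 1 (EE f)) : bd ℚ 0 (Es f a0 (prS f a0 e)) (cc f a0 P
    (fun e => (0 : Ch ℚ 1 (Es f a0 (prS f a0 e)))) e) = 0 := by
  rw [cc, map_sub, map_sub, P.bd 0 (Nat.zero_le _), bd_single, one_smul]
  have h1 : dD1 f a0 (fun e => (0 : Ch ℚ 1 (Es f a0 (prS f a0 e)))) e = 0 := by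
    rw [dD1]
    refine Finset.sum_eq_zero fun i _ => ?_
    rw [map_zero, smul_zero]
  rw [h1, map_zero, sub_zero, sub_eq_zero, dphi]
  refine Finset.sum_congr rfl fun i _ => ?_
  rw [P.kap 0 _ (isK_zero f a0 _), pf_single]
  congr 2
  exact smp_zero_eq _ _

/-- the chain `c e` is a cycle -/
theorem cc_succ {q : ℕ} (hq : q + 1 ≤ m)
    (D : ∀ e : Smp q (EE f), Ch ℚ (q + 1) (Es f a0 (prS f a0 e)))
    (D' : ∀ e : Smp (q + 1) (EE f), Ch ℚ (q + 2) (Es f a0 (prS f a0 e)))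
    (hD : ∀ e : Smp (q + 1) (EE f), bd ℚ (q + 1) (Es f a0 (prS f a0 e)) (D' e) = cc f a0 P D e)
    (e : Smp (q + 2) (EE f)) :
    bd ℚ (q + 1) (Es f a0 (prS f a0 e)) (cc f a0 P D' e) = 0 := by
  rw [cc, map_sub, map_sub, P.bd (q + 1) hq, bd_single, one_smul]
  have h1 : bd ℚ (q + 1) (Es f a0 (prS f a0 e)) (dD1 f a0 D' e) =
      ∑ i : Fin (q + 2), (-1 : ℚ) ^ (i : ℕ) • pf ℚ (q + 1)
        (em f a0 (r := prS f a0 (fc e i)) (s := prS f a0 e) (cf i) rfl)
          (Finsupp.single (tau f a0 (fc e i)) 1) -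
      dphi f a0 P.φ (q + 1) (prS f a0 e) := by
    have h2 := dd_D f a0 D e
    refine Eq.trans ?_ (sub_zero _)
    rw [← h2, dD1, map_sum, dphi, ← Finset.sum_sub_distrib, ← Finset.sum_sub_distrib]
    refine Finset.sum_congr rfl fun i _ => ?_
    rw [map_smul, bd_pf, hD, cc, map_sub, map_sub, smul_sub, smul_sub]
    rfl
  rw [h1]
  have h3 : ∑ i : Fin (q + 2), (-1 : ℚ) ^ (i : ℕ) • pf ℚ (q + 1)
        (em f a0 (r := prS f a0 (fc e i)) (s := prS f a0 e) (cf i) rfl)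
          (Finsupp.single (tau f a0 (fc e i)) 1) =
      ∑ i : Fin (q + 1 + 1), (-1 : ℚ) ^ (i : ℕ) • Finsupp.single (fc (tau f a0 e) i) (1 : ℚ) := by
    refine Finset.sum_congr rfl fun i _ => ?_
    rw [pf_single]
    rfl
  rw [h3]
  abel

open Classical in
/-- the homotopies, by recursion -/
def dSeq : (n : ℕ) → ∀ e : Smp n (EE f), Ch ℚ (n + 1) (Es f a0 (prS f a0 e))
  | 0 => fun _ => 0
  | n + 1 => fun e =>
    if h : ∃ x : Ch ℚ (n + 2) (Es f a0 (prS f a0 e)), bd ℚ (n + 1) (Es f a0 (prS f a0 e)) x =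
      cc f a0 P (dSeq n) e then h.choose else 0

theorem dSeq_spec (n : ℕ) (e : Smp (n + 1) (EE f))
    (h : ∃ x : Ch ℚ (n + 2) (Es f a0 (prS f a0 e)), bd ℚ (n + 1) (Es f a0 (prS f a0 e)) x =
      cc f a0 P (dSeq f a0 P n) e) : bd ℚ (n + 1) (Es f a0 (prS f a0 e)) (dSeq f a0 P (n + 1) e) =
      cc f a0 P (dSeq f a0 P n) e := by
  have e1 : dSeq f a0 P (n + 1) e = h.choose := dif_pos h
  rw [e1]
  exact h.choose_spec

/-- the chain `c e` belonging to the homotopies is a cycle -/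
theorem cyc_c (D : DH f a0 P) {n : ℕ} (hn : n ≤ m) (e : Smp (n + 1) (EE f)) :
    bd ℚ n (Es f a0 (prS f a0 e)) (Finsupp.single (tau f a0 e) 1 - P.φ (n + 1) (prS f a0 e) -
      dD f a0 D.D n e) = 0 := by
  cases n with
  | zero =>
    have h0 : D.D 0 = fun e => (0 : Ch ℚ 1 (Es f a0 (prS f a0 e))) := funext fun e => D.zero e
    have h := cc_zero f a0 P e
    rw [← h0] at h
    exact h
  | succ q => exact cc_succ f a0 P hn (D.D q) (D.D (q + 1)) (fun e => D.bd q (by omega) e) e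

end

theorem dh : T_DH := by
  intro A B _ _ _ f a0 m hac P
  refine ⟨⟨dSeq f a0 P, fun _ => rfl, ?_⟩⟩
  intro n
  induction n with
  | zero =>
    intro h e
    exact dSeq_spec f a0 P 0 e (hac 0 h 0 _ _ (cc_zero f a0 P e))
  | succ q ih =>
    intro h e
    refine dSeq_spec f a0 P (q + 1) e (hac (q + 1) h (q + 1) _ _ ?_)
    exact cc_succ f a0 P (by omega) (dSeq f a0 P q) (dSeq f a0 P (q + 1)) (ih (by omega)) e

end Pool.Agent.H4.FB
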