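import Pool.Agent.H4.FB.Base

/-!
Module F-PHI of the fibration lemma (MP_2059f1_ag).
-/

open Topology Set
open scoped unitInterval ContinuousMap
open Pool.Agent.H59 Pool.Agent.H64.LB Pool.Agent.H93.FB

namespace Pool.Agent.H4.FB

noncomputable section

variable {A B : Type} [TopologicalSpace A] [TopologicalSpace B] (f : C(A, B)) (a0 : A)
  [SimplyConnectedSpace A]

open Classical in
/-- the partial lifts, by recursion -/
def phiSeq : (n : ℕ) → ∀ s : CS (f a0) n, Ch ℚ n (Es f a0 s)
  | 0 => fun s => Finsupp.single (kap f a0 s (isK_zero f a0 s)) 1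
  | n + 1 => fun s =>
    if h : IsK f a0 s then Finsupp.single (kap f a0 s h) 1
    else if h' : ∃ x : Ch ℚ (n + 1) (Es f a0 s), bd ℚ n (Es f a0 s) x = dphi1 f a0 (phiSeq n) s
      then h'.choose else 0

theorem phiSeq_kap (n : ℕ) (s : CS (f a0) n) (h : IsK f a0 s) :
    phiSeq f a0 n s = Finsupp.single (kap f a0 s h) 1 := by
  cases n with
  | zero => rfl
  | succ n => exact dif_pos h

theorem phiSeq_spec (n : ℕ) (s : CS (f a0) (n + 1)) (h : ¬ IsK f a0 s)
    (h' : ∃ x : Ch ℚ (n + 1) (Es f a0 s), bd ℚ n (Es f a0 s) x = dphi1 f a0 (phiSeq f a0 n) s) :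
    bd ℚ n (Es f a0 s) (phiSeq f a0 (n + 1) s) = dphi1 f a0 (phiSeq f a0 n) s := by
  have e : phiSeq f a0 (n + 1) s = h'.choose := (dif_neg h).trans (dif_pos h')
  rw [e]
  exact h'.choose_spec

end

theorem phi : T_PHI := by
  intro A B _ _ _ f a0 m hac hne
  refine ⟨⟨phiSeq f a0, phiSeq_kap f a0, ?_⟩⟩
  intro n
  induction n with
  | zero =>
    intro _ s
    by_cases hs : IsK f a0 s
    · rw [phiSeq_kap f a0 1 s hs]
      exact bd_kap f a0 (phiSeq f a0) (phiSeq_kap f a0) s hs
    · refine phiSeq_spec f a0 0 s hs ?_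
      obtain ⟨x⟩ := hne 0 s
      refine ⟨Finsupp.single (ContinuousMap.const _ x) 1, ?_⟩
      rw [bd_single, one_smul, dphi1]
      refine Finset.sum_congr rfl fun i _ => ?_
      rw [phiSeq, pf_single]
      congr 2
      exact smp_zero_eq _ _
  | succ q ih =>
    intro hq s
    by_cases hs : IsK f a0 s
    · rw [phiSeq_kap f a0 (q + 2) s hs]
      exact bd_kap f a0 (phiSeq f a0) (phiSeq_kap f a0) s hs
    · refine phiSeq_spec f a0 (q + 1) s hs ?_
      refine hac q (by omega) (q + 1) s _ ?_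
      rw [dphi1, map_sum]
      have h := dd_phi f a0 (phiSeq f a0 q) s
      rw [← h]
      refine Finset.sum_congr rfl fun i _ => ?_
      rw [map_smul, bd_pf, ih (by omega) (cfc s i)]
      rfl

end Pool.Agent.H4.FB
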