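import Pool.Agent.H4.FB.Base

/-!
Module F-THE of the fibration lemma (MP_2059f1_ag).
-/

open Topology Set
open scoped unitInterval ContinuousMap
open Pool.Agent.H59 Pool.Agent.H64.LB Pool.Agent.H93.FB

namespace Pool.Agent.H4.FB

noncomputable section

variable {A B : Type} [TopologicalSpace A] [TopologicalSpace B] (f : C(A, B)) (a0 : A)
  [SimplyConnectedSpace A]

theorem dphi_cycle {m : ℕ} (P : Phi f a0 m) (r : CS (f a0) (m + 2)) :
    dphi f a0 P.φ (m + 1) r ∈ ZZ ℚ m (Es f a0 r) := by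
  apply mem_ZZ_of_bd
  rw [dphi, map_sum, ← dd_phi f a0 (P.φ m) r]
  refine Finset.sum_congr rfl fun i _ => ?_
  rw [map_smul, bd_pf, P.bd m le_rfl]
  rfl

theorem thet_single (R : RR f a0) {m : ℕ} (P : Phi f a0 m) (s : CS (f a0) (m + 2)) :
    thet f a0 R P (Finsupp.single s 1) =
      kl m (pf ℚ (m + 1) (R.r s) (dphi f a0 P.φ (m + 1) s)) := by
  rw [thet, Finsupp.linearCombination_single, one_smul]

theorem thet_cbd (hHM : T_HM) (R : RR f a0) {m : ℕ} (P : Phi f a0 m) (s : CS (f a0) (m + 3)) :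
    thet f a0 R P (cbd (f a0) (m + 2) (Finsupp.single s 1)) = 0 := by
  rw [cbd_single, one_smul, map_sum]
  have h1 : ∀ j : Fin (m + 3), thet f a0 R P ((-1 : ℚ) ^ (j : ℕ) • Finsupp.single (cfc s j) 1) =
      (-1 : ℚ) ^ (j : ℕ) • kl m (pf ℚ (m + 1) (R.r s) (pf ℚ (m + 1) (fi f a0 s j)
        (dphi f a0 P.φ (m + 1) (cfc s j)))) := by
    intro j
    rw [map_smul, thet_single, ← HH.pf_comp,
      kl_homotopic hHM (R.face s j) (dphi_cycle f a0 P (cfc s j))]
  rw [Finset.sum_congr rfl fun j _ => h1 j, ← kl_sum]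
  · have h2 : ∑ j : Fin (m + 3), (-1 : ℚ) ^ (j : ℕ) • pf ℚ (m + 1) (R.r s)
        (pf ℚ (m + 1) (fi f a0 s j) (dphi f a0 P.φ (m + 1) (cfc s j))) =
        pf ℚ (m + 1) (R.r s) (∑ j : Fin (m + 3), (-1 : ℚ) ^ (j : ℕ) •
          pf ℚ (m + 1) (fi f a0 s j) (dphi1 f a0 (P.φ (m + 1)) (cfc s j))) := by
      rw [map_sum]
      refine Finset.sum_congr rfl fun j _ => ?_
      rw [map_smul]
      rfl
    rw [h2, dd_phi f a0 (P.φ (m + 1)) s, map_zero, kl_zero]
  · intro j _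
    exact HH.pf_mem_ZZ ℚ _ (HH.pf_mem_ZZ ℚ _ (dphi_cycle f a0 P (cfc s j)))

end

theorem the (hHM : T_HM) : T_THE := by
  intro A B _ _ _ f a0 R m P _
  refine ⟨fun x => ?_, fun s hs => ?_⟩
  · induction x using Finsupp.induction_linear with
    | zero => rw [map_zero, map_zero]
    | add u v hu hv => rw [map_add, map_add, hu, hv, add_zero]
    | single s r =>
      rw [← mul_one r, ← smul_eq_mul, ← Finsupp.smul_single, map_smul, map_smul,
        thet_cbd f a0 hHM R P s, smul_zero]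
  · rw [thet_single, ← bd_kap f a0 P.φ P.kap s hs, ← bd_pf, kl_bd]

end Pool.Agent.H4.FB
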